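import Pool.Agent.H15.STP.Sys

/-!
# Exact labels by finitely many stages: families, sub-laws, mixtures

A family: a law, an element of `α` (a line) and the side information in `ζ`. `P k z x t` is the point
at the resolution `k`, `t` the number of the time; `lj z x` is the size of the Jacobian of the
context along the line. Labels: values `b` with bodies `bd z b`; `Th a z B`: the body `B` is not
thinner than `2 ^ (-a)` times the context; `nr z B x x'`: the lines are near for the body;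
`cj z B x`: minus the logarithm of the Jacobian of the body along the line.
-/

set_option autoImplicit false

namespace Pool.STP

open Finset Real
open Pool.Agent.H49.Ent Pool.Agent.H32.Dense Pool.STK Pool.KA
open Pool.KM7 (Psh avg_Ex avg_CH cond_isLaw sg sg_isLaw sg_Ex sg_law sg_CH)
open Pool.KNH (Ex_mono Ex_cmul Ex_add_const CH_bool)
open Pool.FTM (un un_isLaw un_psh un_pos CH_un)

/-- The data. -/
structure Sy where
  /-- the lines -/
  α : Type
  /-- the side information -/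
  ζ : Type
  /-- the points -/
  β : Type
  /-- the bodies -/
  𝔹 : Type
  /-- the dimension -/
  m : ℕ
  /-- the points of a line -/
  P : ℕ → ζ → α → ℕ → β
  /-- the size of the context -/
  lj : ζ → α → ℝ
  /-- two lines of a family -/
  ok : ζ → α → α → Prop
  /-- the thickness of a body -/
  Th : ℕ → ζ → 𝔹 → Prop
  /-- two lines in a common cell -/
  nr : ζ → 𝔹 → α → α → Prop
  /-- the cost of a body -/
  cj : ζ → 𝔹 → α → ℝ
  Th_mono : ∀ {a a' : ℕ}, a ≤ a' → ∀ {z : ζ} {B : 𝔹}, Th a z B → Th a' z B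

variable {Y : Sy}

/-- The volume of a law at a resolution. -/
noncomputable def Sy.V (Y : Sy) {Ω : Type} [Fintype Ω] (p : Ω → ℝ) (x : Ω → Y.α) (Z : Ω → Y.ζ)
    (k : ℕ) : ℝ :=
  tH k p (fun ω t => Y.P k (Z ω) (x ω) t) Z - Y.m * (k * Real.log 2) -
    Ex p (fun ω => Y.lj (Z ω) (x ω))

/-- The families. -/
structure Fm (Y : Sy) where
  Ω : Type
  fin : Fintype Ω
  p : Ω → ℝ
  isLaw : IsLaw p
  x : Ω → Y.α
  Z : Ω → Y.ζ
  ok : ∀ ω ω', 0 < p ω → 0 < p ω' → Z ω = Z ω' → Y.ok (Z ω) (x ω) (x ω')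

attribute [instance] Fm.fin

/-- The volume of a family. -/
noncomputable def Fm.V (F : Fm Y) (k : ℕ) : ℝ := Y.V F.p F.x F.Z k

/-! ### Sub-laws -/

/-- `l` times the law `p'` is smaller than the law `p`. -/
structure Sub {Ω : Type} [Fintype Ω] (l : ℝ) (p' p : Ω → ℝ) : Prop where
  isl : IsLaw p'
  pos : 0 < l
  le : ∀ ω, l * p' ω ≤ p ω

section sub

variable {Ω : Type} [Fintype Ω] {l l' : ℝ} {p p' p'' : Ω → ℝ}

theorem Sub.le_one (hp : IsLaw p) (h : Sub l p' p) : l ≤ 1 := by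
  have h1 : ∑ ω, l * p' ω ≤ ∑ ω, p ω := sum_le_sum fun ω _ => h.le ω
  rw [← mul_sum, h.isl.sum_one, hp.sum_one, mul_one] at h1
  exact h1

theorem Sub.supp (h : Sub l p' p) {ω : Ω} (hω : 0 < p' ω) : 0 < p ω :=
  lt_of_lt_of_le (mul_pos h.pos hω) (h.le ω)

theorem Sub.trans (h : Sub l p' p) (h' : Sub l' p'' p') : Sub (l' * l) p'' p where
  isl := h'.isl
  pos := mul_pos h'.pos h.pos
  le := fun ω => by
    have h1 := mul_le_mul_of_nonneg_left (h'.le ω) h.pos.le
    have h2 := h.le ω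
    calc l' * l * p'' ω = l * (l' * p'' ω) := by ring
      _ ≤ l * p' ω := h1
      _ ≤ p ω := h2

theorem Sub.refl (hp : IsLaw p) : Sub 1 p p := ⟨hp, one_pos, fun ω => by rw [one_mul]⟩

theorem Sub.eq (hp : IsLaw p) (h : Sub 1 p' p) : p' = p := by
  by_contra hne
  obtain ⟨ω, hω⟩ := Function.ne_iff.mp hne
  have h1 : ∀ ω ∈ (univ : Finset Ω), p' ω ≤ p ω := fun ω _ => by
    have := h.le ω
    rwa [one_mul] at this
  have h2 : ∑ ω, p' ω < ∑ ω, p ω :=
    sum_lt_sum h1 ⟨ω, mem_univ _, lt_of_le_of_ne (h1 ω (mem_univ _)) hω⟩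
  rw [hp.sum_one, h.isl.sum_one] at h2
  exact lt_irrefl _ h2

theorem Sub.cond (hp : IsLaw p) {σ : Type} (s : Ω → σ) {b : σ} (hb : law p s b ≠ 0) :
    Sub (law p s b) (cond p s b) p where
  isl := cond_isLaw hp.nonneg s hb
  pos := lt_of_le_of_ne (law_nonneg hp.nonneg _ _) (Ne.symm hb)
  le := fun ω => by
    classical
    unfold Pool.Agent.H49.Ent.cond
    split_ifs
    · rw [mul_div_cancel₀ _ hb]
    · rw [mul_zero]
      exact hp.nonneg ω

/-- The image of a sub-law. -/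
theorem Sub.map {W : Type} [Fintype W] {q q' : W → ℝ} {pr : W → Ω} (hpsh : Psh q pr p)
    (h : Sub l q' q) : Sub l (law q' pr) p ∧ Psh q' pr (law q' pr) := by
  classical
  refine ⟨⟨⟨fun ω => law_nonneg h.isl.nonneg _ _, ?_⟩, h.pos, fun ω => ?_⟩, fun ω => rfl⟩
  · have h1 : ∑ ω, law q' pr ω = ∑ w, q' w := by
      unfold law
      rw [sum_comm]
      refine sum_congr rfl fun w _ => ?_
      rw [sum_eq_single (pr w)]
      · simp
      · intro b _ hb
        rw [if_neg (Ne.symm hb)]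
      · intro hh
        exact absurd (mem_univ _) hh
    rw [h1]
    exact h.isl.sum_one
  · rw [← hpsh ω]
    unfold law
    rw [mul_sum]
    refine sum_le_sum fun w _ => ?_
    split_ifs
    · exact h.le w
    · simp

/-- The complement of a sub-law. -/
theorem Sub.compl (hp : IsLaw p) (h : Sub l p' p) (hl : l < 1) :
    ∃ p'', Sub (1 - l) p'' p ∧ ∀ ω, p ω = l * p' ω + (1 - l) * p'' ω := by
  have h0 : 0 < 1 - l := by linarith
  have h1 : ∀ ω, (1 - l) * ((p ω - l * p' ω) / (1 - l)) = p ω - l * p' ω := fun ω =>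
    mul_div_cancel₀ _ h0.ne'
  refine ⟨fun ω => (p ω - l * p' ω) / (1 - l), ⟨⟨fun ω => div_nonneg (by linarith [h.le ω]) h0.le,
    ?_⟩, h0, fun ω => ?_⟩, fun ω => ?_⟩
  · rw [← sum_div, sum_sub_distrib, ← mul_sum, hp.sum_one, h.isl.sum_one, mul_one,
      div_self h0.ne']
  · rw [h1]
    have := mul_nonneg h.pos.le (h.isl.nonneg ω)
    linarith
  · rw [h1]
    ring

end sub

/-! ### Mixtures -/

section mix

variable {Ω : Type} [Fintype Ω] {l : ℝ} {p p' p'' : Ω → ℝ} {S T : Type}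

theorem Ex_mix (h : ∀ ω, p ω = l * p' ω + (1 - l) * p'' ω) (f : Ω → ℝ) :
    Ex p f = l * Ex p' f + (1 - l) * Ex p'' f := by
  unfold Ex
  rw [mul_sum, mul_sum, ← sum_add_distrib]
  exact sum_congr rfl fun ω _ => by rw [h ω]; ring

/-- Entropy of a mixture. -/
theorem CH_mix (h0 : 0 ≤ l) (h1 : l ≤ 1) (hp' : IsLaw p') (hp'' : IsLaw p'')
    (h : ∀ ω, p ω = l * p' ω + (1 - l) * p'' ω) (X : Ω → S) (Z : Ω → T) :
    l * CH p' X Z + (1 - l) * CH p'' X Z ≤ CH p X Z ∧
      CH p X Z ≤ l * CH p' X Z + (1 - l) * CH p'' X Z + Real.log 2 := by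
  classical
  obtain ⟨w, hw⟩ : ∃ w : Bool → ℝ, w = fun b => if b = true then l else 1 - l := ⟨_, rfl⟩
  obtain ⟨r, hr⟩ : ∃ r : (b : Bool) → Ω → ℝ, r = fun b => if b = true then p' else p'' := ⟨_, rfl⟩
  have hw0 : ∀ i, 0 ≤ w i := by
    intro i
    rw [hw]
    show 0 ≤ if i = true then l else 1 - l
    split_ifs <;> linarith
  have hw1 : ∑ i, w i = 1 := by
    rw [Fintype.sum_bool, hw]
    simp
  have hrl : ∀ i, IsLaw (r i) := by
    intro i
    rw [hr]
    show IsLaw (if i = true then p' else p'')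
    split_ifs
    · exact hp'
    · exact hp''
  have hlaw : IsLaw (sg w r) := sg_isLaw hw0 hw1 hrl
  have hpsh : Psh (sg w r) (fun e => e.2) p := by
    intro ω
    rw [sg_law, Fintype.sum_bool, hw, hr]
    have e1 : ∀ p : Ω → ℝ, law p (fun e : Ω => e) ω = p ω := fun p => (Psh.id p) ω
    simp only [if_true, Bool.false_eq_true, if_false]
    rw [e1, e1, h ω]
  have e1 : CH p X Z = CH (sg w r) (fun e => X e.2) (fun e => Z e.2) := (hpsh.CH_eq X Z).symm
  have e2 : CH (sg w r) (fun e => X e.2) (fun e => (Z e.2, e.1)) =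
      l * CH p' X Z + (1 - l) * CH p'' X Z := by
    rw [sg_CH hw0 hrl, Fintype.sum_bool, hw, hr]
    simp
  rw [e1, ← e2]
  constructor
  · exact CH_mono_cond hlaw.nonneg (fun _ _ _ _ hh => (Prod.ext_iff.mp hh).1)
  · have h2 := CH_le_add hlaw.nonneg (fun e => X e.2) (fun e => e.1) (fun e => Z e.2)
    have h3 := CH_bool hlaw (fun e => e.1) (fun e => Z e.2)
    have h4 : CH (sg w r) (fun e => X e.2) (fun e => (e.1, Z e.2)) =
        CH (sg w r) (fun e => X e.2) (fun e => (Z e.2, e.1)) := by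
      refine CH_congr hlaw.nonneg ?_ ?_ ?_ ?_
      · intro a b _ _ hh
        exact (Prod.ext_iff.mp hh).1
      · intro a b _ _ hh
        exact (Prod.ext_iff.mp hh).1
      · intro a b _ _ hh
        exact Prod.ext (Prod.ext_iff.mp hh).2 (Prod.ext_iff.mp hh).1
      · intro a b _ _ hh
        exact Prod.ext (Prod.ext_iff.mp hh).2 (Prod.ext_iff.mp hh).1
    rw [h4] at h2
    linarith

theorem tH_mix (k : ℕ) (h0 : 0 ≤ l) (h1 : l ≤ 1) (hp : IsLaw p) (hp' : IsLaw p')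
    (hp'' : IsLaw p'') (h : ∀ ω, p ω = l * p' ω + (1 - l) * p'' ω) (X : Ω → ℕ → S) (Z : Ω → T) :
    tH k p X Z ≤ l * tH k p' X Z + (1 - l) * tH k p'' X Z + Real.log 2 := by
  rw [tH_eq k hp, tH_eq k hp', tH_eq k hp'']
  have h2 : ∑ t ∈ range (2 ^ k), CH p (fun ω => X ω t) Z ≤ ∑ t ∈ range (2 ^ k),
      (l * CH p' (fun ω => X ω t) Z + (1 - l) * CH p'' (fun ω => X ω t) Z + Real.log 2) :=
    sum_le_sum fun t _ => (CH_mix h0 h1 hp' hp'' h _ _).2
  rw [sum_add_distrib, sum_add_distrib, ← mul_sum, ← mul_sum, sum_const, card_range,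
    nsmul_eq_mul] at h2
  have h3 : (0 : ℝ) < 2 ^ k := by positivity
  rw [div_le_iff₀ h3]
  refine h2.trans (le_of_eq ?_)
  push_cast
  field_simp

end mix

/-! ### Volumes -/

section vol

variable {Ω : Type} [Fintype Ω] {p : Ω → ℝ}

theorem V_psh {W : Type} [Fintype W] {q : W → ℝ} {pr : W → Ω} (hq : IsLaw q) (hp : IsLaw p)
    (h : Psh q pr p) (x : Ω → Y.α) (Z : Ω → Y.ζ) (k : ℕ) :
    Y.V q (fun w => x (pr w)) (fun w => Z (pr w)) k = Y.V p x Z k := by
  unfold Sy.V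
  rw [tH_psh k hq hp h (fun ω t => Y.P k (Z ω) (x ω) t) Z, h.Ex_eq (fun ω => Y.lj (Z ω) (x ω))]

theorem V_mix {l : ℝ} {p' p'' : Ω → ℝ} (h0 : 0 ≤ l) (h1 : l ≤ 1) (hp : IsLaw p) (hp' : IsLaw p')
    (hp'' : IsLaw p'') (h : ∀ ω, p ω = l * p' ω + (1 - l) * p'' ω) (x : Ω → Y.α) (Z : Ω → Y.ζ)
    (k : ℕ) :
    Y.V p x Z k ≤ l * Y.V p' x Z k + (1 - l) * Y.V p'' x Z k + Real.log 2 := by
  have h2 := tH_mix k h0 h1 hp hp' hp'' h (fun ω t => Y.P k (Z ω) (x ω) t) Z
  have h3 := Ex_mix h (fun ω => Y.lj (Z ω) (x ω))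
  unfold Sy.V
  rw [h3]
  linarith

/-- Concavity. -/
theorem V_avg (hp : IsLaw p) (s : Ω → Bool) (x : Ω → Y.α) (Z : Ω → Y.ζ) (k : ℕ) :
    ∑ b ∈ univ.image s, law p s b * Y.V (cond p s b) x Z k ≤ Y.V p x Z k := by
  have h1 := tH_avg k hp s (fun ω t => Y.P k (Z ω) (x ω) t) Z
  have h2 := avg_Ex hp.nonneg s (fun ω => Y.lj (Z ω) (x ω))
  have h3 : ∑ b ∈ univ.image s, law p s b = 1 := (sum_law p s).trans hp.sum_one
  have h4 : ∑ b ∈ univ.image s, law p s b * Y.V (cond p s b) x Z k =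
      ∑ b ∈ univ.image s, law p s b * tH k (cond p s b) (fun ω t => Y.P k (Z ω) (x ω) t) Z -
      Y.m * (k * Real.log 2) - Ex p (fun ω => Y.lj (Z ω) (x ω)) := by
    have h5 : ∀ b, law p s b * Y.V (cond p s b) x Z k =
        law p s b * tH k (cond p s b) (fun ω t => Y.P k (Z ω) (x ω) t) Z -
        law p s b * (Y.m * (k * Real.log 2)) -
        law p s b * Ex (cond p s b) (fun ω => Y.lj (Z ω) (x ω)) := fun b => by
      unfold Sy.V
      ring
    rw [sum_congr rfl fun b _ => h5 b, sum_sub_distrib, sum_sub_distrib, ← sum_mul, h3, one_mul,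
      h2]
  rw [h4]
  unfold Sy.V
  linarith

theorem V_ge (hp : IsLaw p) (x : Ω → Y.α) (Z : Ω → Y.ζ) (k : ℕ) :
    -(Y.m * (k * Real.log 2)) - Ex p (fun ω => Y.lj (Z ω) (x ω)) ≤ Y.V p x Z k := by
  unfold Sy.V
  have := tH_nonneg k hp (fun ω t => Y.P k (Z ω) (x ω) t) Z
  linarith

end vol

end Pool.STP
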