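import Pool.Agent.H15.STP.Step
import Pool.Agent.H58.KNB.Box

/-!
# The inputs for the label theorem with bodies of the class `V_E`

`BoxUA m E A`: as `BoxUJ m E`, with labels of thickness `2 ^ (-A k)`.

`sy`: the data of `BoxUJ` for the stages of `Pool.STP`. The lines `α` are pairs of a line and a
minor.

`LamStmt m E` **(LAM)**: the label of one stage. `CruStmt m E` **(CRU)**: an exact label with a
macroscopic gain, for families whose points are not full.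
-/

set_option autoImplicit false

namespace Pool.STP

open Finset Real MvPolynomial
open Pool.Agent.H49.Ent Pool.Agent.H32.Dense Pool.STK Pool.KA Pool.KM7
open Pool.SH (Ln lpos)
open Pool.BJ (JF)
open Pool.KNB (nJ mo cmb ev Nr sS sJ pcl)

/-- **(I2)** The label theorem for uniform times in the cells of the bodies of the class `V_E`, with
labels of thickness `2 ^ (-A k)`. -/
def BoxUA (m E A : ℕ) : Prop :=
  ∃ C₀ : ℝ, 0 < C₀ ∧ ∀ ε : ℝ, 0 < ε → ∃ k₀ : ℕ, ∀ k ≥ k₀,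
    ∀ (Ω ζ : Type) (_ : Fintype Ω) (p : Ω → ℝ), IsLaw p →
    ∀ (l : Ω → Ln m) (Z : Ω → ζ) (A₁ : ζ → Matrix (Fin (nJ m E)) (Fin (nJ m E)) ℝ)
      (S : Ω → Fin m → Fin (nJ m E)), (∀ z, IsUnit (A₁ z)) →
    (∀ ω ω', 0 < p ω → 0 < p ω' → Z ω = Z ω' → Nr (cmb (A₁ (Z ω)) mo) (l ω) (l ω')) →
    (∀ ω, 0 < p ω → sJ (cmb (A₁ (Z ω)) mo) (l ω) ≤ 2 * sS (cmb (A₁ (Z ω)) mo) (S ω) (l ω)) →
    ∃ (W : Type) (_ : Fintype W) (p' : W → ℝ) (pr : W → Ω) (κ : Type) (B : W → κ)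
      (A' : ζ → κ → Matrix (Fin (nJ m E)) (Fin (nJ m E)) ℝ),
      IsLaw p' ∧ Psh p' pr p ∧
      (∀ w, 0 < p' w → ∃ Q Q' : Matrix (Fin (nJ m E)) (Fin (nJ m E)) ℝ,
        A' (Z (pr w)) (B w) = Q' * A₁ (Z (pr w)) ∧ (∀ a b, |Q' a b| ≤ C₀ * 2 ^ (A * k)) ∧
        A₁ (Z (pr w)) = Q * A' (Z (pr w)) (B w) ∧ (∀ a b, |Q a b| ≤ C₀)) ∧
      (∀ w w', 0 < p' w → 0 < p' w' → Z (pr w) = Z (pr w') → B w = B w' →
        Nr (cmb (A' (Z (pr w)) (B w)) mo) (l (pr w)) (l (pr w'))) ∧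
      CH p' B (fun w => Z (pr w)) +
          Ex p' (fun w => -Real.log (sJ (cmb (A' (Z (pr w)) (B w)) mo) (l (pr w)))) ≤
        CH (Pool.FTM.un (2 ^ k) p)
            (fun w => (S w.1, pcl k (cmb (A₁ (Z w.1)) mo) (S w.1) (l w.1) ((w.2 : ℕ) / 2 ^ k)))
            (fun w => ((w.2 : ℕ), Z w.1)) -
          m * (k * Real.log 2) -
          Ex p (fun ω => Real.log (sS (cmb (A₁ (Z ω)) mo) (S ω) (l ω))) + ε * k

/-- The data of the box. -/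
noncomputable def sy (m E : ℕ) (C₀ : ℝ) (ζ : Type)
    (A₁ : ζ → Matrix (Fin (nJ m E)) (Fin (nJ m E)) ℝ) : Sy where
  α := Ln m × (Fin m → Fin (nJ m E))
  ζ := ζ
  β := (Fin m → Fin (nJ m E)) × (Fin m → ℤ)
  𝔹 := Matrix (Fin (nJ m E)) (Fin (nJ m E)) ℝ
  m := m
  P := fun k z x t => (x.2, pcl k (cmb (A₁ z) mo) x.2 x.1 ((t : ℝ) / 2 ^ k))
  lj := fun z x => Real.log (sS (cmb (A₁ z) mo) x.2 x.1)
  ok := fun z x x' => Nr (cmb (A₁ z) mo) x.1 x'.1 ∧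
    sJ (cmb (A₁ z) mo) x.1 ≤ 2 * sS (cmb (A₁ z) mo) x.2 x.1
  Th := fun a z B => ∃ Q Q' : Matrix (Fin (nJ m E)) (Fin (nJ m E)) ℝ,
    B = Q' * A₁ z ∧ (∀ i j, |Q' i j| ≤ C₀ * 2 ^ a) ∧ A₁ z = Q * B ∧ (∀ i j, |Q i j| ≤ C₀)
  nr := fun _ B x x' => Nr (cmb B mo) x.1 x'.1
  cj := fun _ B x => -Real.log (sJ (cmb B mo) x.1)
  Th_mono := by
    rintro a a' ha z B ⟨Q, Q', h1, h2, h3, h4⟩
    refine ⟨Q, Q', h1, fun i j => (h2 i j).trans ?_, h3, h4⟩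
    have h5 : 0 ≤ C₀ := (abs_nonneg _).trans (h4 i j)
    exact mul_le_mul_of_nonneg_left (pow_le_pow_right₀ (by norm_num) ha) h5

/-- **(LAM)** The label of one stage: for every family (any side information) in the cells of any
bodies `A₁` of the class `V_E`, every resolution `k`, every `r ≤ k`: `Fm.Lam` (see `Stg.lean`) with
labels of thickness `A k`, the error `e k`, and universal constants `A`, `D`, `C₀`. -/
def LamStmt (m E : ℕ) : Prop :=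
  ∃ (A : ℕ) (D C₀ : ℝ), 0 ≤ D ∧ 1 ≤ C₀ ∧ ∀ e : ℝ, 0 < e → ∃ k₁ : ℕ, ∀ k ≥ k₁, ∀ r ≤ k,
    ∀ (ζ : Type) (A₁ : ζ → Matrix (Fin (nJ m E)) (Fin (nJ m E)) ℝ), (∀ z, IsUnit (A₁ z)) →
    ∀ F : Fm (sy m E C₀ ζ A₁), F.Lam k (A * k) r D (e * k) C₀

/-- **(CRU)** An exact label with a macroscopic gain, for the families whose points at the resolution
`k` have at most `m - 1 / 2` dimensions. -/
def CruStmt (m E : ℕ) : Prop :=
  ∃ (A : ℕ) (c C₀ : ℝ), 0 < c ∧ 1 ≤ C₀ ∧ ∃ k₁ : ℕ, ∀ k ≥ k₁,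
    ∀ (ζ : Type) (A₁ : ζ → Matrix (Fin (nJ m E)) (Fin (nJ m E)) ℝ), (∀ z, IsUnit (A₁ z)) →
    ∀ F : Fm (sy m E C₀ ζ A₁),
      tH k F.p (fun ω t => (sy m E C₀ ζ A₁).P k (F.Z ω) (F.x ω) t) F.Z ≤
        (m - 1 / 2) * (k * Real.log 2) →
      F.Lbl (A * k) (-Ex F.p (fun ω => Real.log (sS (cmb (A₁ (F.Z ω)) mo) (F.x ω).2 (F.x ω).1)) -
        c * k)

end Pool.STP
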