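import Pool.Agent.H15.STP.Stg

/-!
# Exact labels by finitely many stages: one stage, all stages
-/

set_option autoImplicit false

namespace Pool.STP

open Finset Real
open Pool.Agent.H49.Ent Pool.Agent.H32.Dense Pool.STK Pool.KA
open Pool.KM7 (Psh avg_Ex avg_CH cond_isLaw sg sg_isLaw sg_Ex sg_law sg_CH)
open Pool.KNH (Ex_mono Ex_cmul Ex_add_const CH_bool)
open Pool.FTM (un un_isLaw un_psh un_pos CH_un)

variable {Y : Sy}

theorem Fm.Inv.up {F : Fm Y} {k₀ k : ℕ} {err : ℝ} (h : F.Inv k₀ k err) {W : Type} [Fintype W]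
    {q : W → ℝ} {pr : W → F.Ω} (hpsh : Psh q pr F.p) {l : ℝ} {q' : W → ℝ} (hs : Sub l q' q) :
    l * (Y.V q' (fun w => F.x (pr w)) (fun w => F.Z (pr w)) k -
      Y.V q' (fun w => F.x (pr w)) (fun w => F.Z (pr w)) k₀ + ((k : ℝ) - k₀) * Real.log 2) ≤
      err := by
  obtain ⟨h1, h2⟩ := hs.map hpsh
  have h3 := h l (law q' pr) h1
  rw [V_psh hs.isl h1.isl h2 F.x F.Z k, V_psh hs.isl h1.isl h2 F.x F.Z k₀]
  exact h3

/-- The next scale. -/
theorem next_vol {Ω : Type} [Fintype Ω] {q' : Ω → ℝ} (hq : IsLaw q') {κ : Type} (B : Ω → κ)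
    (x : Ω → Y.α) (Z : Ω → Y.ζ) (k r : ℕ) :
    Y.V q' x Z (k + r) ≤ Y.V q' x Z k +
      CH (un (2 ^ k) q') (fun w => B w.1)
        (fun w => (Y.P k (Z w.1) (x w.1) (w.2 : ℕ), ((w.2 : ℕ), Z w.1))) +
      CH (un (2 ^ (k + r)) q') (fun w => Y.P (k + r) (Z w.1) (x w.1) (w.2 : ℕ))
        (fun w => (B w.1, (Y.P k (Z w.1) (x w.1) ((w.2 : ℕ) / 2 ^ r), ((w.2 : ℕ), Z w.1)))) -
      Y.m * (r * Real.log 2) := by
  have hn := (un_isLaw (N := 2 ^ (k + r)) (by positivity) hq).nonneg
  -- one scale from the other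
  have a1 : tH (k + r) q' (fun ω t => Y.P (k + r) (Z ω) (x ω) t) Z ≤
      tH (k + r) q' (fun ω t => Y.P k (Z ω) (x ω) (t / 2 ^ r)) Z +
      CH (un (2 ^ (k + r)) q') (fun w => Y.P (k + r) (Z w.1) (x w.1) (w.2 : ℕ))
        (fun w => (Y.P k (Z w.1) (x w.1) ((w.2 : ℕ) / 2 ^ r), ((w.2 : ℕ), Z w.1))) :=
    CH_le_add hn _ _ _
  have a2 := tH_div k r hq (fun ω t => Y.P k (Z ω) (x ω) t) Z
  have a3 : CH (un (2 ^ (k + r)) q') (fun w => Y.P (k + r) (Z w.1) (x w.1) (w.2 : ℕ))
        (fun w => (Y.P k (Z w.1) (x w.1) ((w.2 : ℕ) / 2 ^ r), ((w.2 : ℕ), Z w.1))) ≤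
      CH (un (2 ^ (k + r)) q') (fun w => B w.1)
        (fun w => (Y.P k (Z w.1) (x w.1) ((w.2 : ℕ) / 2 ^ r), ((w.2 : ℕ), Z w.1))) +
      CH (un (2 ^ (k + r)) q') (fun w => Y.P (k + r) (Z w.1) (x w.1) (w.2 : ℕ))
        (fun w => (B w.1, (Y.P k (Z w.1) (x w.1) ((w.2 : ℕ) / 2 ^ r), ((w.2 : ℕ), Z w.1)))) :=
    CH_le_add hn _ _ _
  -- the label given the point
  have a4 : CH (un (2 ^ (k + r)) q') (fun w => B w.1)
        (fun w => (Y.P k (Z w.1) (x w.1) ((w.2 : ℕ) / 2 ^ r), ((w.2 : ℕ), Z w.1))) =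
      CH (un (2 ^ k) q') (fun w => B w.1)
        (fun w => (Y.P k (Z w.1) (x w.1) (w.2 : ℕ), ((w.2 : ℕ), Z w.1))) := by
    have b1 := tH_chain (k + r) hq (fun ω _ => B ω)
      (fun ω t => Y.P k (Z ω) (x ω) (t / 2 ^ r)) Z
    have b2 := tH_chain k hq (fun ω _ => B ω) (fun ω t => Y.P k (Z ω) (x ω) t) Z
    have b3 := tH_div k r hq (fun ω t => (B ω, Y.P k (Z ω) (x ω) t)) Z
    rw [b3, b2, a2] at b1
    linarith
  unfold Sy.V
  rw [a2] at a1
  push_cast
  have e1 : (Y.m : ℝ) * (((k : ℝ) + r) * Real.log 2) = Y.m * (k * Real.log 2) +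
    Y.m * (r * Real.log 2) := by ring
  rw [e1]
  linarith

/-- **One stage.** -/
theorem stage_step {F : Fm Y} {k₀ k a r : ℕ} {D e C δ c err N : ℝ} (hN : 0 ≤ N) (he : 0 ≤ e)
    (hC : 0 ≤ C) (hc : 0 ≤ c) (hδ : 0 ≤ δ) (herr : 0 ≤ err)
    (hr : D * r ≤ ((k : ℝ) - k₀) * Real.log 2 + δ) (hL : F.Lam k a r D e C)
    (hI : F.Inv k₀ k err)
    (hnext : ∀ (G : Fm Y) (err' : ℝ), 0 ≤ err' → G.Inv k₀ (k + r) err' →
      G.Lbl a (G.V k₀ + δ + N * err' + c)) :
    F.Lbl a (F.V k₀ + δ + (N + 1) * err +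
      (c + 3 * e + 2 * Real.log 2 + N * (4 * e + Real.log 2 + C))) := by
  classical
  have hl2 : 0 < Real.log 2 := Real.log_pos (by norm_num)
  obtain ⟨W, i, q, pr, κ, B, bd, v, los, er, hq, hpsh, hth, hnr, hcj, her, h1, h2, h3⟩ := hL
  refine Fm.Lbl.of_up (F := F) (q := q) (hq := hq) (pr := pr)
    (h := fun w hw => hpsh.pos hq.nonneg hw) hpsh ?_
  obtain ⟨xw, hxw⟩ : ∃ xw : W → Y.α, xw = fun w => F.x (pr w) := ⟨_, rfl⟩
  obtain ⟨Zw, hZw⟩ : ∃ Zw : W → Y.ζ, Zw = fun w => F.Z (pr w) := ⟨_, rfl⟩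
  obtain ⟨cw, hcw⟩ : ∃ cw : W → ℝ, cw = fun w => Y.cj (F.Z (pr w)) (bd (F.Z (pr w)) (B w))
    (F.x (pr w)) := ⟨_, rfl⟩
  -- restatements
  have hVF : Y.V q xw Zw k = F.V k := by
    rw [hxw, hZw]
    exact V_psh hq F.isLaw hpsh F.x F.Z k
  have hVF0 : Y.V q xw Zw k₀ = F.V k₀ := by
    rw [hxw, hZw]
    exact V_psh hq F.isLaw hpsh F.x F.Z k₀
  have h1' : CH q B Zw + Ex q v ≤ Y.V q xw Zw k + e := by
    rw [hVF, hZw]
    exact h1
  have h2' : ∀ (l : ℝ) (q' : W → ℝ), Sub l q' q →
      l * CH (un (2 ^ k) q') (fun w => Y.P k (Zw w.1) (xw w.1) (w.2 : ℕ))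
          (fun w => (B w.1, ((w.2 : ℕ), Zw w.1))) ≤
        l * (Y.m * (k * Real.log 2) + Ex q' (fun w => v w + Y.lj (Zw w) (xw w))) + e := by
    rw [hxw, hZw]
    exact h2
  have h3' : ∀ (l : ℝ) (q' : W → ℝ), Sub l q' q → (∀ w, 0 < q' w → D * r ≤ los w) →
      l * CH (un (2 ^ (k + r)) q') (fun w => Y.P (k + r) (Zw w.1) (xw w.1) (w.2 : ℕ))
        (fun w => (B w.1, (Y.P k (Zw w.1) (xw w.1) ((w.2 : ℕ) / 2 ^ r), ((w.2 : ℕ), Zw w.1)))) ≤
        l * ((Y.m - 1) * (r * Real.log 2) + C) + e := by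
    rw [hxw, hZw]
    exact h3
  have hI' : ∀ (l : ℝ) (q' : W → ℝ), Sub l q' q →
      l * (Y.V q' xw Zw k - Y.V q' xw Zw k₀ + ((k : ℝ) - k₀) * Real.log 2) ≤ err := by
    rw [hxw, hZw]
    exact fun l q' hs => hI.up hpsh hs
  have hcj' : ∀ w, 0 < q w → 0 ≤ er w ∧ cw w ≤ v w + los w + er w := by
    rw [hcw]
    exact hcj
  -- the exceptional lines
  obtain ⟨S, hS⟩ : ∃ S : W → Bool, S = fun w => decide (D * r ≤ los w) := ⟨_, rfl⟩
  have hinv : law q S true ≠ 0 → ∀ (l : ℝ) (p' : W → ℝ), Sub l p' (cond q S true) →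
      l * (Y.V p' xw Zw (k + r) - Y.V p' xw Zw k₀ + (((k + r : ℕ) : ℝ) - k₀) * Real.log 2) ≤
        (err + 4 * e + Real.log 2 + C) / law q S true := by
    intro hb l p' hs'
    have hbl : IsLaw (cond q S true) := cond_isLaw hq.nonneg S hb
    have hsub : Sub (law q S true) (cond q S true) q := Sub.cond hq S hb
    have hs2 : Sub (l * law q S true) p' q := hsub.trans hs'
    have hl1 : l ≤ 1 := hs'.le_one hbl
    have b1 := vis_sub hq B v xw Zw k he h1' h2' hs2
    have b2 := h3' _ _ hs2 (fun w hw => by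
      have h4 := ((cond_pos_iff hq.nonneg S true w).mp (hs'.supp hw)).2
      rw [hS] at h4
      exact of_decide_eq_true h4)
    have b3 := hI' _ _ hs2
    have b4 := next_vol (Y := Y) hs'.isl B xw Zw k r
    have b5 := mul_le_mul_of_nonneg_left b4 hs2.pos.le
    have b6 : l * law q S true * C ≤ C := by
      have := hs2.le_one hq
      nlinarith
    rw [le_div_iff₀ hsub.pos]
    push_cast
    obtain ⟨L, hL⟩ : ∃ L, L = l * law q S true := ⟨_, rfl⟩
    rw [← hL] at b1 b2 b3 b5 b6
    have e1 : l * (Y.V p' xw Zw (k + r) - Y.V p' xw Zw k₀ +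
      (((k : ℝ) + r) - k₀) * Real.log 2) * law q S true =
      L * Y.V p' xw Zw (k + r) - L * Y.V p' xw Zw k₀ + L * (((k : ℝ) - k₀) * Real.log 2) +
      L * (r * Real.log 2) := by
      rw [hL]
      ring
    rw [e1]
    obtain ⟨A1, hA1⟩ : ∃ A1, A1 = CH (un (2 ^ k) p') (fun w => B w.1)
      (fun w => (Y.P k (Zw w.1) (xw w.1) (w.2 : ℕ), ((w.2 : ℕ), Zw w.1))) := ⟨_, rfl⟩
    obtain ⟨A2, hA2⟩ : ∃ A2, A2 = CH (un (2 ^ (k + r)) p')
      (fun w => Y.P (k + r) (Zw w.1) (xw w.1) (w.2 : ℕ))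
      (fun w => (B w.1, (Y.P k (Zw w.1) (xw w.1) ((w.2 : ℕ) / 2 ^ r),
        ((w.2 : ℕ), Zw w.1)))) := ⟨_, rfl⟩
    rw [← hA1] at b1 b5
    rw [← hA2] at b2 b5
    have e2 : L * (Y.V p' xw Zw k + A1 + A2 - Y.m * (r * Real.log 2)) =
      L * Y.V p' xw Zw k + L * A1 + L * A2 - L * (Y.m * (r * Real.log 2)) := by ring
    have e3 : L * ((Y.m - 1) * (r * Real.log 2) + C) = L * (Y.m * (r * Real.log 2)) -
      L * (r * Real.log 2) + L * C := by ring
    have e4 : L * (Y.V p' xw Zw k - Y.V p' xw Zw k₀ + ((k : ℝ) - k₀) * Real.log 2) =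
      L * Y.V p' xw Zw k - L * Y.V p' xw Zw k₀ + L * (((k : ℝ) - k₀) * Real.log 2) := by
      ring
    rw [e2] at b5
    rw [e3] at b2
    rw [e4] at b3
    linarith
  obtain ⟨T, hT⟩ : ∃ T : Bool → ℝ, T = fun b => if b = true then
    Y.V (cond q S true) xw Zw k₀ + δ + N * ((err + 4 * e + Real.log 2 + C) / law q S true) + c
    else CH (cond q S false) B Zw + Ex (cond q S false) cw := ⟨_, rfl⟩
  have hmix := Fm.Lbl.mix (F.up q hq pr (fun w hw => hpsh.pos hq.nonneg hw)) S (a := a) T (by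
    intro b hb
    have hbl : IsLaw (cond q S b) := cond_isLaw hq.nonneg S hb
    have hsub : Sub (law q S b) (cond q S b) q := Sub.cond hq S hb
    rcases Bool.eq_false_or_eq_true b with hbt | hbf
    · subst hbt
      have hT1 : T true = Y.V (cond q S true) xw Zw k₀ + δ +
          N * ((err + 4 * e + Real.log 2 + C) / law q S true) + c := by
        rw [hT]
        simp
      rw [hT1]
      have hgoal := hnext ((F.up q hq pr (fun w hw => hpsh.pos hq.nonneg hw)).up
        (cond q S true) (cond_isLaw hq.nonneg S hb) (fun ω => ω)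
        (fun ω hω => ((cond_pos_iff hq.nonneg S true ω).mp hω).1))
        ((err + 4 * e + Real.log 2 + C) / law q S true)
        (div_nonneg (by linarith) hsub.pos.le) (by
        intro l p' hs
        have h4 := hinv hb l p' hs
        rw [hxw, hZw] at h4
        exact h4)
      have e0 : ((F.up q hq pr (fun w hw => hpsh.pos hq.nonneg hw)).up
        (cond q S true) (cond_isLaw hq.nonneg S hb) (fun ω => ω)
        (fun ω hω => ((cond_pos_iff hq.nonneg S true ω).mp hω).1)).V k₀ =
        Y.V (cond q S true) xw Zw k₀ := by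
        rw [hxw, hZw]
        rfl
      rw [e0] at hgoal
      exact hgoal
    · subst hbf
      have hT0 : T false = CH (cond q S false) B Zw + Ex (cond q S false) cw := by
        rw [hT]
        simp
      rw [hT0]
      have hpos : ∀ w, 0 < cond q S false w → 0 < q w := fun w hw =>
        ((cond_pos_iff hq.nonneg S false w).mp hw).1
      refine ⟨W, i, cond q S false, fun w => w, κ, B, bd, hbl, Psh.id _,
        fun w hw => hth w (hpos w hw), fun w w' hw hw' => hnr w w' (hpos w hw) (hpos w' hw'), ?_⟩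
      rw [hZw, hcw]
      exact le_refl _)
  refine hmix.mono (le_refl _) ?_
  -- the sum
  have hsum1 : ∑ b ∈ univ.image S, law q S b = 1 := (sum_law q S).trans hq.sum_one
  obtain ⟨Rb, hRb⟩ : ∃ Rb : Bool → ℝ, Rb = fun b => if b = true then
    N * (err + 4 * e + Real.log 2 + C) + c else err + 3 * e + Real.log 2 := ⟨_, rfl⟩
  have hRb0 : ∀ b, 0 ≤ Rb b := by
    intro b
    rw [hRb]
    show 0 ≤ if b = true then N * (err + 4 * e + Real.log 2 + C) + c else err + 3 * e + Real.log 2
    split_ifs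
    · have : 0 ≤ N * (err + 4 * e + Real.log 2 + C) := mul_nonneg hN (by linarith)
      linarith
    · linarith
  have hterm : ∀ b ∈ univ.image S, law q S b * T b ≤
      law q S b * Y.V (cond q S b) xw Zw k₀ + law q S b * δ + Rb b := by
    intro b _
    by_cases hb : law q S b = 0
    · rw [hb, zero_mul, zero_mul, zero_mul]
      linarith [hRb0 b]
    have hbl : IsLaw (cond q S b) := cond_isLaw hq.nonneg S hb
    have hsub : Sub (law q S b) (cond q S b) q := Sub.cond hq S hb
    have hle := hsub.le_one hq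
    rcases Bool.eq_false_or_eq_true b with hbt | hbf
    · subst hbt
      have hT1 : T true = Y.V (cond q S true) xw Zw k₀ + δ +
          N * ((err + 4 * e + Real.log 2 + C) / law q S true) + c := by
        rw [hT]
        simp
      have hR1 : Rb true = N * (err + 4 * e + Real.log 2 + C) + c := by
        rw [hRb]
        simp
      rw [hT1, hR1]
      have e1 : law q S true * (Y.V (cond q S true) xw Zw k₀ + δ +
          N * ((err + 4 * e + Real.log 2 + C) / law q S true) + c) =
          law q S true * Y.V (cond q S true) xw Zw k₀ + law q S true * δ +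
          N * (err + 4 * e + Real.log 2 + C) + law q S true * c := by
        field_simp
      rw [e1]
      have e2 : law q S true * c ≤ c := by nlinarith
      linarith
    · subst hbf
      have hT0 : T false = CH (cond q S false) B Zw + Ex (cond q S false) cw := by
        rw [hT]
        simp
      have hR0 : Rb false = err + 3 * e + Real.log 2 := by
        rw [hRb]
        simp
      rw [hT0, hR0]
      have b1 := cost_sub hq B v xw Zw k he h1' h2' hsub
      have b2 := hI' _ _ hsub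
      have b3 : Ex (cond q S false) cw ≤ Ex (cond q S false) v + D * r +
          Ex (cond q S false) er := by
        have b4 : Ex (cond q S false) cw ≤ Ex (cond q S false)
            (fun w => (v w + er w) + D * r) := by
          refine Pool.KNH.Ex_mono hbl.nonneg fun w hw => ?_
          obtain ⟨b5, b6⟩ := (cond_pos_iff hq.nonneg S false w).mp hw
          obtain ⟨_, b8⟩ := hcj' w b5
          rw [hS] at b6
          have b7 : ¬ D * r ≤ los w := of_decide_eq_false b6
          push Not at b7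
          linarith
        rw [Ex_add_const hbl, Ex_add] at b4
        linarith
      have b4 : law q S false * Ex (cond q S false) er ≤ e := by
        refine le_trans ?_ her
        have b5 : law q S false * Ex (cond q S false) er =
            ∑ w, law q S false * cond q S false w * er w := by
          unfold Ex
          rw [mul_sum]
          exact sum_congr rfl fun w _ => by ring
        rw [b5]
        refine sum_le_sum fun w _ => ?_
        rcases (hq.nonneg w).eq_or_lt with h0 | h0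
        · have b6 := hsub.le w
          rw [← h0] at b6
          have b7 : law q S false * cond q S false w = 0 :=
            le_antisymm b6 (mul_nonneg hsub.pos.le (hbl.nonneg w))
          rw [b7, ← h0]
        · exact mul_le_mul_of_nonneg_right (hsub.le w) (hcj' w h0).1
      have b5 := mul_le_mul_of_nonneg_left b3 hsub.pos.le
      have b6 := mul_le_mul_of_nonneg_left hr hsub.pos.le
      have e1 : law q S false * (Ex (cond q S false) v + D * r + Ex (cond q S false) er) =
        law q S false * Ex (cond q S false) v + law q S false * (D * r) +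
        law q S false * Ex (cond q S false) er := by ring
      have e2 : law q S false * (CH (cond q S false) B Zw + Ex (cond q S false) v) =
        law q S false * CH (cond q S false) B Zw + law q S false * Ex (cond q S false) v := by
        ring
      have e3 : law q S false * (CH (cond q S false) B Zw + Ex (cond q S false) cw) =
        law q S false * CH (cond q S false) B Zw + law q S false * Ex (cond q S false) cw := by
        ring
      have e4 : law q S false * (Y.V (cond q S false) xw Zw k - Y.V (cond q S false) xw Zw k₀ +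
        ((k : ℝ) - k₀) * Real.log 2) = law q S false * Y.V (cond q S false) xw Zw k -
        law q S false * Y.V (cond q S false) xw Zw k₀ +
        law q S false * (((k : ℝ) - k₀) * Real.log 2) := by ring
      have e5 : law q S false * (((k : ℝ) - k₀) * Real.log 2 + δ) =
        law q S false * (((k : ℝ) - k₀) * Real.log 2) + law q S false * δ := by ring
      rw [e1] at b5
      rw [e2] at b1
      rw [e4] at b2
      rw [e5] at b6
      rw [e3]
      linarith
  have hs1 := sum_le_sum hterm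
  rw [sum_add_distrib, sum_add_distrib, ← sum_mul, hsum1, one_mul] at hs1
  have hs2 := V_avg (Y := Y) hq S xw Zw k₀
  have hs3 : ∑ b ∈ univ.image S, Rb b ≤ ∑ b, Rb b :=
    sum_le_sum_of_subset_of_nonneg (subset_univ _) fun b _ _ => hRb0 b
  have hs4 : ∑ b, Rb b = N * (err + 4 * e + Real.log 2 + C) + c + (err + 3 * e + Real.log 2) := by
    rw [Fintype.sum_bool, hRb]
    simp
  rw [hVF0] at hs2
  have e1 : N * (err + 4 * e + Real.log 2 + C) = N * err + N * (4 * e + Real.log 2 + C) := by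
    ring
  rw [e1] at hs4
  have e2 : (N + 1) * err = N * err + err := by ring
  rw [e2]
  have hs5 : ∑ b ∈ univ.image S, law (F.up q hq pr (fun w hw => hpsh.pos hq.nonneg hw)).p S b *
    T b = ∑ b ∈ univ.image S, law q S b * T b := rfl
  show ∑ b ∈ univ.image S, law (F.up q hq pr (fun w hw => hpsh.pos hq.nonneg hw)).p S b *
    T b + Real.log 2 ≤ _
  rw [hs5]
  linarith

end Pool.STP
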