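import Pool.Agent.H15.STP.Fam

/-!
# Exact labels by finitely many stages

`Fm.Lam`: a label at the resolution `k`, with a price `v` for which the volume is attained and which
bounds the numbers of points for all sub-laws, and with the loss `los` from the price to the exact
cost; on a sub-law with a large loss the points at the resolution `k + r` are in a set of
codimension one.

`Fm.Lbl`: an exact label.

`stages`: the labels of finitely many stages give an exact label, if the families which survive have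
one (`Cru`).
-/

set_option autoImplicit false

namespace Pool.STP

open Finset Real
open Pool.Agent.H49.Ent Pool.Agent.H32.Dense Pool.STK Pool.KA
open Pool.KM7 (Psh avg_Ex avg_CH cond_isLaw sg sg_isLaw sg_Ex sg_law sg_CH)
open Pool.KNH (Ex_mono Ex_cmul Ex_add_const CH_bool)
open Pool.FTM (un un_isLaw un_psh un_pos CH_un)

variable {Y : Sy}

/-- **Exact labels.** -/
def Fm.Lbl (F : Fm Y) (a : ℕ) (T : ℝ) : Prop :=
  ∃ (W : Type) (_ : Fintype W) (q : W → ℝ) (pr : W → F.Ω) (κ : Type) (B : W → κ)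
    (bd : Y.ζ → κ → Y.𝔹),
    IsLaw q ∧ Psh q pr F.p ∧
    (∀ w, 0 < q w → Y.Th a (F.Z (pr w)) (bd (F.Z (pr w)) (B w))) ∧
    (∀ w w', 0 < q w → 0 < q w' → F.Z (pr w) = F.Z (pr w') → B w = B w' →
      Y.nr (F.Z (pr w)) (bd (F.Z (pr w)) (B w)) (F.x (pr w)) (F.x (pr w'))) ∧
    CH q B (fun w => F.Z (pr w)) +
      Ex q (fun w => Y.cj (F.Z (pr w)) (bd (F.Z (pr w)) (B w)) (F.x (pr w))) ≤ T

/-- **The label of one stage.** -/
def Fm.Lam (F : Fm Y) (k a r : ℕ) (D e C : ℝ) : Prop :=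
  ∃ (W : Type) (_ : Fintype W) (q : W → ℝ) (pr : W → F.Ω) (κ : Type) (B : W → κ)
    (bd : Y.ζ → κ → Y.𝔹) (v los er : W → ℝ),
    IsLaw q ∧ Psh q pr F.p ∧
    (∀ w, 0 < q w → Y.Th a (F.Z (pr w)) (bd (F.Z (pr w)) (B w))) ∧
    (∀ w w', 0 < q w → 0 < q w' → F.Z (pr w) = F.Z (pr w') → B w = B w' →
      Y.nr (F.Z (pr w)) (bd (F.Z (pr w)) (B w)) (F.x (pr w)) (F.x (pr w'))) ∧
    (∀ w, 0 < q w → 0 ≤ er w ∧
      Y.cj (F.Z (pr w)) (bd (F.Z (pr w)) (B w)) (F.x (pr w)) ≤ v w + los w + er w) ∧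
    Ex q er ≤ e ∧
    CH q B (fun w => F.Z (pr w)) + Ex q v ≤ F.V k + e ∧
    (∀ (l : ℝ) (q' : W → ℝ), Sub l q' q →
      l * CH (un (2 ^ k) q')
          (fun w => Y.P k (F.Z (pr w.1)) (F.x (pr w.1)) (w.2 : ℕ))
          (fun w => (B w.1, ((w.2 : ℕ), F.Z (pr w.1)))) ≤
        l * (Y.m * (k * Real.log 2) +
          Ex q' (fun w => v w + Y.lj (F.Z (pr w)) (F.x (pr w)))) + e) ∧
    (∀ (l : ℝ) (q' : W → ℝ), Sub l q' q → (∀ w, 0 < q' w → D * r ≤ los w) →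
      l * CH (un (2 ^ (k + r)) q')
          (fun w => Y.P (k + r) (F.Z (pr w.1)) (F.x (pr w.1)) (w.2 : ℕ))
          (fun w => (B w.1, (Y.P k (F.Z (pr w.1)) (F.x (pr w.1)) ((w.2 : ℕ) / 2 ^ r),
            ((w.2 : ℕ), F.Z (pr w.1))))) ≤
        l * ((Y.m - 1) * (r * Real.log 2) + C) + e)

/-- The invariant of the stages. -/
def Fm.Inv (F : Fm Y) (k₀ k : ℕ) (err : ℝ) : Prop :=
  ∀ (l : ℝ) (p' : F.Ω → ℝ), Sub l p' F.p →
    l * (Y.V p' F.x F.Z k - Y.V p' F.x F.Z k₀ + ((k : ℝ) - k₀) * Real.log 2) ≤ err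

theorem Fm.Lbl.mono {F : Fm Y} {a a' : ℕ} {T T' : ℝ} (ha : a ≤ a') (hT : T ≤ T')
    (h : F.Lbl a T) : F.Lbl a' T' := by
  obtain ⟨W, i, q, pr, κ, B, bd, h1, h2, h3, h4, h5⟩ := h
  exact ⟨W, i, q, pr, κ, B, bd, h1, h2, fun w hw => Y.Th_mono ha (h3 w hw), h4, h5.trans hT⟩

section stage

variable {Ω : Type} [Fintype Ω]

/-- The price of a label on a sub-law. -/
theorem cost_sub {q : Ω → ℝ} (hq : IsLaw q) {κ : Type} (B : Ω → κ) (v : Ω → ℝ) (x : Ω → Y.α)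
    (Z : Ω → Y.ζ) (k : ℕ) {e : ℝ} (he : 0 ≤ e)
    (h1 : CH q B Z + Ex q v ≤ Y.V q x Z k + e)
    (h2 : ∀ (l : ℝ) (q' : Ω → ℝ), Sub l q' q →
      l * CH (un (2 ^ k) q') (fun w => Y.P k (Z w.1) (x w.1) (w.2 : ℕ))
          (fun w => (B w.1, ((w.2 : ℕ), Z w.1))) ≤
        l * (Y.m * (k * Real.log 2) + Ex q' (fun w => v w + Y.lj (Z w) (x w))) + e)
    {l : ℝ} {q' : Ω → ℝ} (h : Sub l q' q) :
    l * (CH q' B Z + Ex q' v) ≤ l * Y.V q' x Z k + 2 * e + Real.log 2 := by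
  have hl2 : 0 < Real.log 2 := Real.log_pos (by norm_num)
  -- the lower bound of the price
  have key : ∀ (l : ℝ) (q' : Ω → ℝ), Sub l q' q →
      l * Y.V q' x Z k ≤ l * (CH q' B Z + Ex q' v) + e := by
    intro l q' h
    have k1 := h2 l q' h
    have k2 : tH k q' (fun ω t => Y.P k (Z ω) (x ω) t) Z ≤ CH q' B Z +
        CH (un (2 ^ k) q') (fun w => Y.P k (Z w.1) (x w.1) (w.2 : ℕ))
          (fun w => (B w.1, ((w.2 : ℕ), Z w.1))) := by
      have k3 := CH_le_add (un_isLaw (N := 2 ^ k) (by positivity) h.isl).nonneg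
        (fun w => Y.P k (Z w.1) (x w.1) (w.2 : ℕ)) (fun w => B w.1) (fun w => ((w.2 : ℕ), Z w.1))
      have k4 : CH (un (2 ^ k) q') (fun w => B w.1) (fun w => ((w.2 : ℕ), Z w.1)) = CH q' B Z :=
        tH_const k h.isl B Z
      rw [k4] at k3
      exact k3
    have k5 := mul_le_mul_of_nonneg_left k2 h.pos.le
    rw [Ex_add] at k1
    unfold Sy.V
    have e1 : l * (tH k q' (fun ω t => Y.P k (Z ω) (x ω) t) Z - Y.m * (k * Real.log 2) -
        Ex q' (fun ω => Y.lj (Z ω) (x ω))) =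
        l * tH k q' (fun ω t => Y.P k (Z ω) (x ω) t) Z - l * (Y.m * (k * Real.log 2)) -
        l * Ex q' (fun ω => Y.lj (Z ω) (x ω)) := by ring
    rw [e1]
    rw [mul_add] at k5
    rw [mul_add, mul_add] at k1
    rw [mul_add]
    linarith
  have hl1 := h.le_one hq
  rcases hl1.lt_or_eq with hlt | heq
  · obtain ⟨q'', h3, h4⟩ := h.compl hq hlt
    have k1 := key _ _ h3
    have k2 := (CH_mix h.pos.le hl1 h.isl h3.isl h4 B Z).1
    have k3 := Ex_mix h4 v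
    have k4 := V_mix h.pos.le hl1 hq h.isl h3.isl h4 x Z k
    have e1 : (1 - l) * (CH q'' B Z + Ex q'' v) = (1 - l) * CH q'' B Z + (1 - l) * Ex q'' v := by
      ring
    rw [e1] at k1
    have e2 : l * (CH q' B Z + Ex q' v) = l * CH q' B Z + l * Ex q' v := by ring
    rw [e2]
    linarith
  · subst heq
    have h3 := h.eq hq
    rw [h3, one_mul, one_mul]
    linarith

/-- The label is visible. -/
theorem vis_sub {q : Ω → ℝ} (hq : IsLaw q) {κ : Type} (B : Ω → κ) (v : Ω → ℝ) (x : Ω → Y.α)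
    (Z : Ω → Y.ζ) (k : ℕ) {e : ℝ} (he : 0 ≤ e)
    (h1 : CH q B Z + Ex q v ≤ Y.V q x Z k + e)
    (h2 : ∀ (l : ℝ) (q' : Ω → ℝ), Sub l q' q →
      l * CH (un (2 ^ k) q') (fun w => Y.P k (Z w.1) (x w.1) (w.2 : ℕ))
          (fun w => (B w.1, ((w.2 : ℕ), Z w.1))) ≤
        l * (Y.m * (k * Real.log 2) + Ex q' (fun w => v w + Y.lj (Z w) (x w))) + e)
    {l : ℝ} {q' : Ω → ℝ} (h : Sub l q' q) :
    l * CH (un (2 ^ k) q') (fun w => B w.1)
      (fun w => (Y.P k (Z w.1) (x w.1) (w.2 : ℕ), ((w.2 : ℕ), Z w.1))) ≤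
      3 * e + Real.log 2 := by
  have k1 := cost_sub hq B v x Z k he h1 h2 h
  have k2 := h2 l q' h
  have hn := (un_isLaw (N := 2 ^ k) (by positivity) h.isl).nonneg
  have k3 := CH_chain hn (fun w => Y.P k (Z w.1) (x w.1) (w.2 : ℕ)) (fun w => B w.1)
    (fun w => ((w.2 : ℕ), Z w.1))
  have k4 := CH_chain hn (fun w => B w.1) (fun w => Y.P k (Z w.1) (x w.1) (w.2 : ℕ))
    (fun w => ((w.2 : ℕ), Z w.1))
  have k5 : CH (un (2 ^ k) q') (fun w => (Y.P k (Z w.1) (x w.1) (w.2 : ℕ), B w.1))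
      (fun w => ((w.2 : ℕ), Z w.1)) =
      CH (un (2 ^ k) q') (fun w => (B w.1, Y.P k (Z w.1) (x w.1) (w.2 : ℕ)))
      (fun w => ((w.2 : ℕ), Z w.1)) := by
    refine CH_congr hn ?_ ?_ (fun _ _ _ _ hh => hh) (fun _ _ _ _ hh => hh)
    · intro a b _ _ hh
      have h3 := Prod.ext_iff.mp (Prod.ext_iff.mp hh).1
      exact Prod.ext h3.2 h3.1
    · intro a b _ _ hh
      have h3 := Prod.ext_iff.mp (Prod.ext_iff.mp hh).1
      exact Prod.ext h3.2 h3.1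
  have k6 : CH (un (2 ^ k) q') (fun w => B w.1) (fun w => ((w.2 : ℕ), Z w.1)) = CH q' B Z :=
    tH_const k h.isl B Z
  rw [k5, k6] at k3
  have k7 : CH (un (2 ^ k) q') (fun w => Y.P k (Z w.1) (x w.1) (w.2 : ℕ))
      (fun w => ((w.2 : ℕ), Z w.1)) = tH k q' (fun ω t => Y.P k (Z ω) (x ω) t) Z := rfl
  rw [k7] at k4
  obtain ⟨A1, hA1⟩ : ∃ A1, A1 = CH (un (2 ^ k) q') (fun w => B w.1)
      (fun w => (Y.P k (Z w.1) (x w.1) (w.2 : ℕ), ((w.2 : ℕ), Z w.1))) := ⟨_, rfl⟩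
  obtain ⟨A2, hA2⟩ : ∃ A2, A2 = CH (un (2 ^ k) q') (fun w => Y.P k (Z w.1) (x w.1) (w.2 : ℕ))
          (fun w => (B w.1, ((w.2 : ℕ), Z w.1))) := ⟨_, rfl⟩
  rw [← hA1] at k4 ⊢
  rw [← hA2] at k2 k3
  have k8 : A1 = CH q' B Z + A2 - tH k q' (fun ω t => Y.P k (Z ω) (x ω) t) Z := by linarith
  rw [k8]
  rw [Ex_add] at k2
  unfold Sy.V at k1
  have e1 : l * (tH k q' (fun ω t => Y.P k (Z ω) (x ω) t) Z - Y.m * (k * Real.log 2) -
        Ex q' (fun ω => Y.lj (Z ω) (x ω))) =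
        l * tH k q' (fun ω t => Y.P k (Z ω) (x ω) t) Z - l * (Y.m * (k * Real.log 2)) -
        l * Ex q' (fun ω => Y.lj (Z ω) (x ω)) := by ring
  rw [e1, mul_add] at k1
  rw [mul_add, mul_add] at k2
  have e2 : l * (CH q' B Z + A2 - tH k q' (fun ω t => Y.P k (Z ω) (x ω) t) Z) =
    l * CH q' B Z + l * A2 - l * tH k q' (fun ω t => Y.P k (Z ω) (x ω) t) Z := by ring
  rw [e2]
  linarith

end stage

/-! ### Extensions and mixtures of exact labels -/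

/-- A family on an extension. -/
def Fm.up (F : Fm Y) {W : Type} [Fintype W] (q : W → ℝ) (hq : IsLaw q) (pr : W → F.Ω)
    (h : ∀ w, 0 < q w → 0 < F.p (pr w)) : Fm Y where
  Ω := W
  fin := inferInstance
  p := q
  isLaw := hq
  x := fun w => F.x (pr w)
  Z := fun w => F.Z (pr w)
  ok := fun w w' hw hw' hz => F.ok _ _ (h w hw) (h w' hw') hz

theorem Fm.Lbl.of_up {F : Fm Y} {W : Type} [Fintype W] {q : W → ℝ} {hq : IsLaw q} {pr : W → F.Ω}
    {h : ∀ w, 0 < q w → 0 < F.p (pr w)} (hpsh : Psh q pr F.p) {a : ℕ} {T : ℝ}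
    (hL : (F.up q hq pr h).Lbl a T) : F.Lbl a T := by
  obtain ⟨W', i, q', pr', κ, B, bd, h1, h2, h3, h4, h5⟩ := hL
  have h6 : Psh q' (fun w => pr (pr' w)) F.p := hpsh.comp h2
  exact ⟨W', i, q', fun w => pr (pr' w), κ, B, bd, h1, h6, h3, h4, h5⟩

/-- **Mixtures.** -/
theorem Fm.Lbl.mix (F : Fm Y) (S : F.Ω → Bool) {a : ℕ} (T : Bool → ℝ)
    (h : ∀ b (hb : law F.p S b ≠ 0),
      (F.up (cond F.p S b) (cond_isLaw F.isLaw.nonneg S hb) (fun ω => ω)
        (fun ω hω => ((cond_pos_iff F.isLaw.nonneg S b ω).mp hω).1)).Lbl a (T b)) :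
    F.Lbl a (∑ b ∈ univ.image S, law F.p S b * T b + Real.log 2) := by
  classical
  obtain ⟨I, hI⟩ : ∃ I : Finset Bool, I = (univ.image S).filter (fun s => law F.p S s ≠ 0) :=
    ⟨_, rfl⟩
  have hmem : ∀ s ∈ I, law F.p S s ≠ 0 := by
    rw [hI]
    exact fun s hs => (Finset.mem_filter.mp hs).2
  have hne : ∀ i : I, law F.p S i.1 ≠ 0 := fun i => hmem i.1 i.2
  have h' : ∀ i : I, ∃ (W : Type) (_ : Fintype W) (q : W → ℝ) (pr : W → F.Ω) (κ : Type)
      (B : W → κ) (bd : Y.ζ → κ → Y.𝔹),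
      IsLaw q ∧ Psh q pr (cond F.p S i.1) ∧
      (∀ w, 0 < q w → Y.Th a (F.Z (pr w)) (bd (F.Z (pr w)) (B w))) ∧
      (∀ w w', 0 < q w → 0 < q w' → F.Z (pr w) = F.Z (pr w') → B w = B w' →
        Y.nr (F.Z (pr w)) (bd (F.Z (pr w)) (B w)) (F.x (pr w)) (F.x (pr w'))) ∧
      CH q B (fun w => F.Z (pr w)) +
        Ex q (fun w => Y.cj (F.Z (pr w)) (bd (F.Z (pr w)) (B w)) (F.x (pr w))) ≤ T i.1 :=
    fun i => h i.1 (hne i)
  choose E inst q pr κ B bd hq hpsh hth hnr hT using h'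
  obtain ⟨wt, hwt⟩ : ∃ wt : I → ℝ, wt = fun i => law F.p S i.1 := ⟨_, rfl⟩
  have hwt' : ∀ i, wt i = law F.p S i.1 := fun i => by rw [hwt]
  have hw0 : ∀ i, 0 ≤ wt i := fun i => by
    rw [hwt' i]
    exact law_nonneg F.isLaw.nonneg _ _
  have hsum : ∀ f : Bool → ℝ, (∀ s, law F.p S s = 0 → f s = 0) →
      ∑ i : I, f i.1 = ∑ s ∈ univ.image S, f s := by
    intro f hf
    rw [Finset.sum_coe_sort I f, hI, Finset.sum_filter]
    refine Finset.sum_congr rfl fun s _ => ?_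
    split_ifs with h1
    · rfl
    · exact (hf s (not_not.mp h1)).symm
  have hw1 : ∑ i, wt i = 1 := by
    have h1 := hsum (fun s => law F.p S s) (fun s hs => hs)
    have h2 := sum_law F.p S
    rw [F.isLaw.sum_one] at h2
    rw [hwt]
    exact h1.trans h2
  obtain ⟨P, hP⟩ : ∃ P : (Σ i, E i) → ℝ, P = sg wt q := ⟨_, rfl⟩
  have hPl : IsLaw P := by
    rw [hP]
    exact sg_isLaw hw0 hw1 hq
  have hpos : ∀ e, 0 < P e → 0 < wt e.1 ∧ 0 < q e.1 e.2 := by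
    intro e he
    rw [hP] at he
    unfold sg at he
    rcases (hw0 e.1).eq_or_lt with h0 | h0
    · rw [← h0, zero_mul] at he
      exact absurd he (lt_irrefl _)
    rcases ((hq e.1).nonneg e.2).eq_or_lt with h3 | h3
    · rw [← h3, mul_zero] at he
      exact absurd he (lt_irrefl _)
    exact ⟨h0, h3⟩
  have hPsh : Psh P (fun e : (Σ i, E i) => (pr e.1 e.2 : F.Ω)) F.p := by
    intro ω
    rw [hP, sg_law]
    have h1 : ∀ i : I, wt i * law (q i) (fun e => pr i e) ω =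
        if S ω = i.1 then F.p ω else 0 := by
      intro i
      have h2 : law (q i) (fun e => pr i e) ω = cond F.p S i.1 ω := hpsh i ω
      rw [h2, hwt' i]
      unfold Pool.Agent.H49.Ent.cond
      split_ifs with h3
      · rw [mul_div_cancel₀ _ (hne i)]
      · rw [mul_zero]
    refine (Finset.sum_congr rfl fun i _ => h1 i).trans ?_
    rcases (F.isLaw.nonneg ω).eq_or_lt with h0 | h0
    · rw [← h0]
      simp
    · have h4 : S ω ∈ I := by
        rw [hI]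
        exact Finset.mem_filter.mpr ⟨Finset.mem_image_of_mem _ (Finset.mem_univ _),
          (law_pos F.isLaw.nonneg S h0).ne'⟩
      rw [Finset.sum_eq_single (⟨S ω, h4⟩ : I)]
      · simp
      · intro b _ hb
        rw [if_neg]
        intro h5
        exact hb (Subtype.ext h5.symm)
      · intro h5
        exact absurd (Finset.mem_univ _) h5
  refine ⟨Σ i, E i, inferInstance, P, fun e => pr e.1 e.2, Σ i, κ i,
    fun e => ⟨e.1, B e.1 e.2⟩, fun z b => bd b.1 z b.2, hPl, hPsh,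
    fun e he => hth e.1 e.2 (hpos e he).2, ?_, ?_⟩
  · rintro ⟨i, e⟩ ⟨i', e'⟩ he he' hz hb
    simp only [Sigma.mk.injEq] at hb
    obtain ⟨hii, hb⟩ := hb
    subst hii
    exact hnr i e e' (hpos _ he).2 (hpos _ he').2 hz (eq_of_heq hb)
  -- the entropy of the label
  have hN := hPl.nonneg
  obtain ⟨Z', hZ'⟩ : ∃ Z' : (Σ i, E i) → Y.ζ, Z' = fun e => F.Z (pr e.1 e.2) := ⟨_, rfl⟩
  obtain ⟨Bh, hBh⟩ : ∃ Bh : (Σ i, E i) → (Σ i, κ i), Bh = fun e => ⟨e.1, B e.1 e.2⟩ := ⟨_, rfl⟩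
  have e1 : CH P Bh Z' ≤ CH P (fun e : (Σ i, E i) => e.1) Z' + CH P Bh (fun e => (e.1, Z' e)) :=
    CH_le_add hN Bh (fun e : (Σ i, E i) => e.1) Z'
  have e2 : CH P (fun e : (Σ i, E i) => e.1) Z' ≤ Real.log 2 := by
    refine le_trans ?_ (CH_bool hPl (fun e : (Σ i, E i) => (e.1 : Bool)) Z')
    refine CH_mono_left hN ?_
    intro a b _ _ hab
    exact Subtype.ext (Prod.ext_iff.mp hab).1
  have e3 : CH P Bh (fun e => (e.1, Z' e)) =
      ∑ i, wt i * CH (q i) (B i) (fun e => F.Z (pr i e)) := by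
    have h1 := sg_CH hw0 hq Bh Z'
    have h2 : CH P Bh (fun e => (e.1, Z' e)) = CH P Bh (fun e => (Z' e, e.1)) := by
      refine CH_congr hN ?_ ?_ ?_ ?_
      · intro a b _ _ hh
        exact (Prod.ext_iff.mp hh).1
      · intro a b _ _ hh
        exact (Prod.ext_iff.mp hh).1
      · intro a b _ _ hh
        exact Prod.ext (Prod.ext_iff.mp hh).2 (Prod.ext_iff.mp hh).1
      · intro a b _ _ hh
        exact Prod.ext (Prod.ext_iff.mp hh).2 (Prod.ext_iff.mp hh).1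
    rw [h2, hP, h1]
    refine Finset.sum_congr rfl fun i _ => ?_
    congr 1
    rw [hBh, hZ']
    refine CH_congr (hq i).nonneg ?_ ?_ (fun _ _ _ _ hh => hh) (fun _ _ _ _ hh => hh)
    · intro a b _ _ hh
      have h3 : (⟨i, B i a⟩ : Σ i, κ i) = ⟨i, B i b⟩ := (Prod.ext_iff.mp hh).1
      simp only [Sigma.mk.injEq] at h3
      exact eq_of_heq h3.2
    · intro a b _ _ hh
      have h3 : B i a = B i b := (Prod.ext_iff.mp hh).1
      show (⟨i, B i a⟩ : Σ i, κ i) = ⟨i, B i b⟩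
      rw [h3]
  have e4 : Ex P (fun e : (Σ i, E i) => Y.cj (F.Z (pr e.1 e.2)) (bd e.1 (F.Z (pr e.1 e.2))
      (B e.1 e.2)) (F.x (pr e.1 e.2))) = ∑ i, wt i * Ex (q i)
      (fun e => Y.cj (F.Z (pr i e)) (bd i (F.Z (pr i e)) (B i e)) (F.x (pr i e))) := by
    rw [hP]
    exact sg_Ex _
  have e5 : ∑ s ∈ univ.image S, law F.p S s * T s = ∑ i, wt i * T i.1 := by
    rw [hwt]
    exact (hsum (fun s => law F.p S s * T s) (fun s hs => by rw [hs, zero_mul])).symm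
  have e6 : ∑ i, (wt i * CH (q i) (B i) (fun e => F.Z (pr i e)) + wt i * Ex (q i)
      (fun e => Y.cj (F.Z (pr i e)) (bd i (F.Z (pr i e)) (B i e)) (F.x (pr i e)))) ≤
      ∑ i, wt i * T i.1 := by
    refine Finset.sum_le_sum fun i _ => ?_
    rw [← mul_add]
    exact mul_le_mul_of_nonneg_left (hT i) (hw0 i)
  rw [Finset.sum_add_distrib] at e6
  show CH P (fun e : (Σ i, E i) => (⟨e.1, B e.1 e.2⟩ : Σ i, κ i))
    (fun e => F.Z (pr e.1 e.2)) + Ex P (fun e : (Σ i, E i) => Y.cj (F.Z (pr e.1 e.2))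
      (bd e.1 (F.Z (pr e.1 e.2)) (B e.1 e.2)) (F.x (pr e.1 e.2))) ≤ _
  rw [← hBh, ← hZ', e4, e5]
  linarith

end Pool.STP
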