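import Pool.Agent.H10.FTM.Pure
import Pool.Agent.H15.KNH.Loz

/-!
# Exact labels by finitely many stages: times and families

Entropy of the point given the time, in the mean over `2 ^ k` times.
-/

set_option autoImplicit false

namespace Pool.STP

open Finset Real
open Pool.Agent.H49.Ent Pool.Agent.H32.Dense Pool.STK Pool.KA
open Pool.KM7 (Psh avg_Ex avg_CH cond_isLaw)
open Pool.KNH (Ex_mono Ex_add Ex_cmul Ex_add_const)
open Pool.FTM (un un_isLaw un_psh un_pos CH_un)

/-! ### Means over the times -/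

section times

variable {Ω : Type} [Fintype Ω] {S T U : Type}

/-- Entropy of the point given the time, in the mean over `2 ^ k` times. -/
noncomputable def tH (k : ℕ) (p : Ω → ℝ) (X : Ω → ℕ → S) (Z : Ω → T) : ℝ :=
  CH (un (2 ^ k) p) (fun w => X w.1 (w.2 : ℕ)) (fun w => ((w.2 : ℕ), Z w.1))

theorem tH_eq (k : ℕ) {p : Ω → ℝ} (hp : IsLaw p) (X : Ω → ℕ → S) (Z : Ω → T) :
    tH k p X Z = (∑ t ∈ range (2 ^ k), CH p (fun ω => X ω t) Z) / 2 ^ k := by
  have h1 : tH k p X Z = CH (un (2 ^ k) p) (fun w => X w.1 (w.2 : ℕ))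
      (fun w => (w.2, Z w.1)) := by
    unfold tH
    refine CH_congr (un_isLaw (by positivity) hp).nonneg ?_ ?_ ?_ ?_
    · intro a b _ _ h
      exact (Prod.ext_iff.mp h).1
    · intro a b _ _ h
      exact (Prod.ext_iff.mp h).1
    · intro a b _ _ h
      have h2 := Prod.ext_iff.mp h
      exact Prod.ext (Fin.ext h2.1) h2.2
    · intro a b _ _ h
      have h2 := Prod.ext_iff.mp h
      refine Prod.ext ?_ h2.2
      show ((a.2 : ℕ)) = (b.2 : ℕ)
      have h3 : a.2 = b.2 := h2.1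
      rw [h3]
  rw [h1, CH_un (by positivity) hp, Finset.sum_range (fun t => CH p (fun ω => X ω t) Z)]
  push_cast
  rfl

theorem tH_nonneg (k : ℕ) {p : Ω → ℝ} (hp : IsLaw p) (X : Ω → ℕ → S) (Z : Ω → T) :
    0 ≤ tH k p X Z := CH_nonneg (un_isLaw (by positivity) hp).nonneg _ _

/-- The chain rule. -/
theorem tH_chain (k : ℕ) {p : Ω → ℝ} (hp : IsLaw p) (X : Ω → ℕ → S) (Y : Ω → ℕ → U)
    (Z : Ω → T) :
    tH k p (fun ω t => (X ω t, Y ω t)) Z = tH k p Y Z +
      CH (un (2 ^ k) p) (fun w => X w.1 (w.2 : ℕ))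
        (fun w => (Y w.1 (w.2 : ℕ), ((w.2 : ℕ), Z w.1))) :=
  CH_chain (un_isLaw (by positivity) hp).nonneg _ _ _

/-- A variable which does not depend on the time. -/
theorem tH_const (k : ℕ) {p : Ω → ℝ} (hp : IsLaw p) (B : Ω → S) (Z : Ω → T) :
    tH k p (fun ω _ => B ω) Z = CH p B Z := by
  rw [tH_eq k hp, Finset.sum_const, Finset.card_range, nsmul_eq_mul]
  push_cast
  field_simp

theorem sum_div_pow (f : ℕ → ℝ) (k r : ℕ) :
    (∑ t ∈ range (2 ^ (k + r)), f (t / 2 ^ r)) / 2 ^ (k + r) =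
      (∑ t ∈ range (2 ^ k), f t) / 2 ^ k := by
  have h1 : ∑ t ∈ range (2 ^ (k + r)), f (t / 2 ^ r) = 2 ^ r * ∑ t ∈ range (2 ^ k), f t := by
    rw [pow_add, Finset.mul_sum]
    have key : ∀ n : ℕ, ∑ t ∈ range (n * 2 ^ r), f (t / 2 ^ r) = ∑ t ∈ range n, 2 ^ r * f t := by
      intro n
      induction n with
      | zero => simp
      | succ n ih =>
        rw [add_mul, one_mul, Finset.sum_range_add, ih, Finset.sum_range_succ]
        congr 1
        have h2 : ∀ x ∈ range (2 ^ r), f ((n * 2 ^ r + x) / 2 ^ r) = f n := by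
          intro x hx
          congr 1
          rw [mul_comm, Nat.mul_add_div (by positivity), Nat.div_eq_of_lt (Finset.mem_range.mp hx),
            add_zero]
        rw [Finset.sum_congr rfl h2, Finset.sum_const, Finset.card_range, nsmul_eq_mul]
        push_cast
        ring
    exact key (2 ^ k)
  rw [h1, pow_add]
  field_simp

/-- More times. -/
theorem tH_div (k r : ℕ) {p : Ω → ℝ} (hp : IsLaw p) (X : Ω → ℕ → S) (Z : Ω → T) :
    tH (k + r) p (fun ω t => X ω (t / 2 ^ r)) Z = tH k p X Z := by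
  rw [tH_eq _ hp, tH_eq _ hp]
  exact sum_div_pow (fun t => CH p (fun ω => X ω t) Z) k r

/-- Projections. -/
theorem tH_psh (k : ℕ) {W : Type} [Fintype W] {q : W → ℝ} {pr : W → Ω} {p : Ω → ℝ}
    (hq : IsLaw q) (hp : IsLaw p) (h : Psh q pr p) (X : Ω → ℕ → S) (Z : Ω → T) :
    tH k q (fun w t => X (pr w) t) (fun w => Z (pr w)) = tH k p X Z := by
  rw [tH_eq _ hq, tH_eq _ hp]
  congr 1
  exact Finset.sum_congr rfl fun t _ => h.CH_eq (fun ω => X ω t) Z

/-- Concavity. -/
theorem tH_avg (k : ℕ) {p : Ω → ℝ} (hp : IsLaw p) (s : Ω → Bool) (X : Ω → ℕ → S) (Z : Ω → T) :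
    ∑ b ∈ univ.image s, law p s b * tH k (cond p s b) X Z ≤ tH k p X Z := by
  have h1 : ∀ b ∈ univ.image s, law p s b * tH k (cond p s b) X Z =
      (∑ t ∈ range (2 ^ k), law p s b * CH (cond p s b) (fun ω => X ω t) Z) / 2 ^ k := by
    intro b _
    by_cases hb : law p s b = 0
    · simp [hb]
    · rw [tH_eq _ (cond_isLaw hp.nonneg s hb), ← mul_div_assoc, Finset.mul_sum]
  rw [Finset.sum_congr rfl h1, tH_eq _ hp, ← Finset.sum_div, Finset.sum_comm]
  refine div_le_div_of_nonneg_right ?_ (by positivity)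
  refine Finset.sum_le_sum fun t _ => ?_
  rw [← avg_CH hp.nonneg s (fun ω => X ω t) Z]
  exact CH_mono_cond hp.nonneg (fun ω ω' _ _ h => (Prod.ext_iff.mp h).1)

end times

end Pool.STP
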